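import Mathlib
import Pool.Agent.Q78.RSA.Defs
import Pool.Agent.Q78.RSA.Main

/-!
# MP_771d0b_an : the automorphism group of a non-recognisable random substitution subshift

The definitions (the random substitution, legal words, the subshift `X`, the shift and the
automorphism group `Aut`) are in `Pool.Agent.Q78.RSA.Defs`.
-/

namespace Pool.Agent.Results.MP_771d0b_an.NotResiduallyFinite

open Q78.RSA

/-- The automorphism group of the subshift of the random substitution `a ↦ {abaa, aaba}`,
`b ↦ {abab, baba}` is not residually finite: some nontrivial automorphism lies in every subgroup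
of finite index. -/
theorem result : ¬ Group.ResiduallyFinite AutGroup ∧
    ∃ f : AutGroup, f ≠ 1 ∧ ∀ H : Subgroup AutGroup, H.FiniteIndex → f ∈ H :=
  ⟨not_residuallyFinite, main⟩

end Pool.Agent.Results.MP_771d0b_an.NotResiduallyFinite
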